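import Pool.Agent.H9.Burnside.Basic

/-!
# Counting characterisations of the exponents for which periodic groups are locally finite
-/

namespace Pool.Agent.Results.MP_544bd1_al.CountingCharacterisation

open Pool.Agent.H9.Burnside

universe u

/-- `n ∈ 𝓛`: `n` is positive and every group satisfying `x ^ n = 1` is locally finite. -/
def InL (n : ℕ) : Prop :=
  0 < n ∧ ∀ (G : Type u) [Group G], (∀ g : G, g ^ n = 1) → ∀ H : Subgroup G, H.FG → Finite H

/-- For every `m` there are, up to isomorphism, only finitely many groups which satisfy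
`x ^ n = 1` and are generated by `m` elements. -/
def FinitelyManyTypes (n : ℕ) : Prop :=
  ∀ m : ℕ, ∃ (k : ℕ) (H : Fin k → Type u) (_ : ∀ i, Group (H i)),
    ∀ (G : Type u) [Group G], (∀ g : G, g ^ n = 1) →
      (∃ s : Fin m → G, Subgroup.closure (Set.range s) = ⊤) → ∃ i, Nonempty (G ≃* H i)

/-- Every finitely generated group satisfying `x ^ n = 1` has only finitely many normal
subgroups. -/
def FinitelyManyNormal (n : ℕ) : Prop :=
  ∀ (G : Type u) [Group G], Group.FG G → (∀ g : G, g ^ n = 1) →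
    {N : Subgroup G | N.Normal}.Finite

/-- Every finitely generated group satisfying `x ^ n = 1` satisfies the minimal condition on
normal subgroups: there is no infinite strictly descending chain of normal subgroups. -/
def MinNormal (n : ℕ) : Prop :=
  ∀ (G : Type u) [Group G], Group.FG G → (∀ g : G, g ^ n = 1) →
    ¬ ∃ N : ℕ → Subgroup G, StrictAnti N ∧ ∀ i, (N i).Normal

/-- For some `m` the orders of the finite `m`-generator groups satisfying `x ^ n = 1` are not
bounded. -/
def UnboundedFinite (n : ℕ) : Prop :=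
  ∃ m : ℕ, ∀ k : ℕ, ∃ (G : Type u) (_ : Group G), (∀ g : G, g ^ n = 1) ∧
    (∃ s : Fin m → G, Subgroup.closure (Set.range s) = ⊤) ∧ Finite G ∧ k < Nat.card G

/-- There are an infinite simple group `S` satisfying `x ^ n = 1` and a number `d` such that every
power `S ^ k` is generated by `d` elements, and `S ^ l` is a quotient of `S ^ k` only if
`l ≤ k`. -/
def BoundedGrowthSimple (n : ℕ) : Prop :=
  ∃ (S : Type u) (_ : Group S) (d : ℕ), IsSimpleGroup S ∧ Infinite S ∧ (∀ g : S, g ^ n = 1) ∧
    (∀ k : ℕ, ∃ s : Fin d → (Fin k → S), Subgroup.closure (Set.range s) = ⊤) ∧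
    ∀ (k l : ℕ) (φ : (Fin k → S) →* (Fin l → S)), Function.Surjective φ → l ≤ k

/-! ### The dichotomy for exponents outside `𝓛` -/

theorem fg_iff_exists (G : Type u) [Group G] :
    Group.FG G ↔ ∃ (d : ℕ) (s : Fin d → G), Subgroup.closure (Set.range s) = ⊤ := by
  classical
  constructor
  · intro h
    obtain ⟨T, hT⟩ := Group.fg_def.mp h
    refine ⟨T.card, fun i => (T.equivFin.symm i : G), ?_⟩
    rw [← hT]
    congr 1
    ext x
    constructor
    · rintro ⟨i, rfl⟩
      exact (T.equivFin.symm i).2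
    · intro hx
      exact ⟨T.equivFin ⟨x, hx⟩, by simp⟩
  · rintro ⟨d, s, hs⟩
    refine Group.fg_def.mpr ⟨Finset.univ.image s, ?_⟩
    rw [← hs]
    congr 1
    ext x
    simp

theorem exists_infinite {n : ℕ} (hn : 0 < n) (h : ¬ InL.{u} n) :
    ∃ (Γ : Type u) (_ : Group Γ), Group.FG Γ ∧ Infinite Γ ∧ ∀ g : Γ, g ^ n = 1 := by
  unfold InL at h
  push Not at h
  obtain ⟨G, hG, hex, H, hfg, hinf⟩ := h hn
  refine ⟨H, inferInstance, (Group.fg_iff_subgroup_fg H).mpr hfg, hinf, fun g => ?_⟩
  exact Subtype.ext (by simpa using hex g)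

theorem pow_quotient {G : Type u} [Group G] {n : ℕ} (h : ∀ g : G, g ^ n = 1) (N : Subgroup G)
    [N.Normal] (g : G ⧸ N) : g ^ n = 1 := by
  obtain ⟨x, rfl⟩ := QuotientGroup.mk'_surjective N g
  rw [← map_pow, h x, map_one]

theorem closure_quotient {G : Type u} [Group G] {d : ℕ} (s : Fin d → G)
    (hs : Subgroup.closure (Set.range s) = ⊤) (N : Subgroup G) [N.Normal] :
    Subgroup.closure (Set.range fun i => (QuotientGroup.mk' N (s i))) = ⊤ := by
  have h1 : Set.range (fun i => (QuotientGroup.mk' N (s i))) =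
      (QuotientGroup.mk' N) '' Set.range s := by
    rw [← Set.range_comp]; rfl
  rw [h1, ← MonoidHom.map_closure, hs, ← MonoidHom.range_eq_map]
  exact MonoidHom.range_eq_top.mpr (QuotientGroup.mk'_surjective N)

/-- The simple group of the second case. -/
theorem simple_of_bounded {n : ℕ} (Γ : Type u) [Group Γ] (hfg : Group.FG Γ)
    (hinf : Infinite Γ) (hex : ∀ g : Γ, g ^ n = 1)
    (hb : ∃ k, ∀ N : Subgroup Γ, N.Normal → N.FiniteIndex → N.index ≤ k) :
    ∃ (S : Type u) (_ : Group S) (d : ℕ) (s : Fin d → S), IsSimpleGroup S ∧ Infinite S ∧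
      (∀ g : S, g ^ n = 1) ∧ Subgroup.closure (Set.range s) = ⊤ := by
  obtain ⟨K, M, hM, hK, hSinf, hSs⟩ := exists_simple_section Γ hb
  have hKfg : Group.FG K := Subgroup.fg_of_index_ne_zero K
  have hSfg : Group.FG (K ⧸ M) := inferInstance
  obtain ⟨d, s, hs⟩ := (fg_iff_exists (K ⧸ M)).mp hSfg
  refine ⟨K ⧸ M, inferInstance, d, s, hSs, hSinf, ?_, hs⟩
  refine pow_quotient (fun g => ?_) M
  exact Subtype.ext (by simpa using hex g)

theorem pow_pi {S : Type u} [Group S] {n : ℕ} (h : ∀ g : S, g ^ n = 1) {ι : Type} (f : ι → S) :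
    f ^ n = 1 := by
  funext i
  simp [h]

theorem boundedGrowth {n : ℕ} (hn : 0 < n) (S : Type u) [Group S] [IsSimpleGroup S] [Infinite S]
    (hS : ∀ g : S, g ^ n = 1) {d : ℕ} (s : Fin d → S)
    (hs : Subgroup.closure (Set.range s) = ⊤) (k : ℕ) :
    ∃ t : Fin (d + 1) → (Fin k → S), Subgroup.closure (Set.range t) = ⊤ := by
  have hna := nonabelian_of_infinite hn hS
  obtain ⟨x⟩ : Nonempty (ℕ ↪ S) := ⟨Infinite.natEmbedding S⟩
  exact ⟨_, closure_diagGen hna s hs (fun i : Fin k => x i)
    (x.injective.comp Fin.val_injective)⟩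

/-! ### Infinite chains -/

theorem chain_of_unbounded (Γ : Type u) [Group Γ]
    (hb : ∀ k, ∃ N : Subgroup Γ, N.Normal ∧ N.FiniteIndex ∧ k < N.index) :
    ∃ N : ℕ → Subgroup Γ, StrictAnti N ∧ ∀ i, (N i).Normal := by
  classical
  let T := {N : Subgroup Γ // N.Normal ∧ N.FiniteIndex}
  have hstep : ∀ N : T, ∃ N' : T, N'.1 < N.1 := by
    rintro ⟨N, hN, hNf⟩
    obtain ⟨M, hM, hMf, hMi⟩ := hb N.index
    refine ⟨⟨N ⊓ M, inferInstance, inferInstance⟩, ?_⟩
    refine lt_of_le_of_ne inf_le_left fun h => ?_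
    have h1 : N ≤ M := by
      have h2 : N ⊓ M = N := h
      rw [← h2]
      exact inf_le_right
    have h3 : M.index ≤ N.index :=
      Nat.le_of_dvd (Nat.pos_of_ne_zero hNf.index_ne_zero) (Subgroup.index_dvd_of_le h1)
    omega
  choose f hf using hstep
  let N0 : T := ⟨⊤, inferInstance, inferInstance⟩
  let seq : ℕ → T := fun i => f^[i] N0
  refine ⟨fun i => (seq i).1, strictAnti_nat_of_succ_lt fun i => ?_, fun i => (seq i).2.1⟩
  have : seq (i + 1) = f (seq i) := Function.iterate_succ_apply' f i N0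
  show (seq (i + 1)).1 < (seq i).1
  rw [this]
  exact hf _

theorem chain_of_simple {n : ℕ} (hn : 0 < n) (S : Type u) [Group S] [IsSimpleGroup S] [Infinite S]
    (hS : ∀ g : S, g ^ n = 1) {d : ℕ} (s : Fin d → S)
    (hs : Subgroup.closure (Set.range s) = ⊤) :
    ∃ (G : Type u) (_ : Group G), Group.FG G ∧ (∀ g : G, g ^ n = 1) ∧
      ∃ N : ℕ → Subgroup G, StrictAnti N ∧ ∀ i, (N i).Normal := by
  classical
  have hna := nonabelian_of_infinite hn hS
  obtain ⟨x⟩ : Nonempty (ℕ ↪ S) := ⟨Infinite.natEmbedding S⟩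
  let P : Subgroup (ℕ → S) := Subgroup.closure (Set.range (diagGen s x))
  let ρ : ∀ k : ℕ, P →* (Fin k → S) := fun k => (restr S (fun i : Fin k => (i : ℕ))).comp P.subtype
  have hρ : ∀ k, Function.Surjective (ρ k) := by
    intro k
    have h1 := map_restr_eq_top hna s hs x x.injective (fun i : Fin k => (i : ℕ))
      Fin.val_injective
    intro y
    have hy : y ∈ (Subgroup.closure (Set.range (diagGen s x))).map
        (restr S (fun i : Fin k => (i : ℕ))) := by rw [h1]; trivial
    obtain ⟨p, hp, hpy⟩ := hy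
    exact ⟨⟨p, hp⟩, hpy⟩
  refine ⟨P, inferInstance, ?_, ?_, fun k => (ρ k).ker, ?_, fun k => inferInstance⟩
  · exact Group.closure_finite_fg _
  · intro g
    exact Subtype.ext (pow_pi hS (g : ℕ → S))
  · refine strictAnti_nat_of_succ_lt fun k => ?_
    refine lt_of_le_of_ne ?_ ?_
    · intro p hp
      rw [MonoidHom.mem_ker] at hp ⊢
      funext i
      have := congrFun hp i.castSucc
      exact this
    · intro heq
      obtain ⟨t, ht⟩ := exists_ne (1 : S)
      obtain ⟨p, hp⟩ := hρ (k + 1) (Pi.mulSingle (Fin.last k) t)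
      have h1 : p ∈ (ρ k).ker := by
        rw [MonoidHom.mem_ker]
        funext i
        have h2 := congrFun hp i.castSucc
        rw [Pi.mulSingle_eq_of_ne (Fin.castSucc_lt_last i).ne] at h2
        exact h2
      rw [← heq, MonoidHom.mem_ker] at h1
      rw [h1] at hp
      have h3 := congrFun hp (Fin.last k)
      rw [Pi.mulSingle_eq_same] at h3
      exact ht h3.symm

/-! ### The implications from `n ∈ 𝓛` -/

/-- The free Burnside group of rank `m` and exponent `n`. -/
abbrev FB (m n : ℕ) : Type u :=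
  FreeGroup (ULift.{u} (Fin m)) ⧸
    Subgroup.normalClosure (Set.range fun g : FreeGroup (ULift.{u} (Fin m)) => g ^ n)

theorem FB_pow (m n : ℕ) (g : FB.{u} m n) : g ^ n = 1 := by
  obtain ⟨x, rfl⟩ := QuotientGroup.mk'_surjective _ g
  rw [← map_pow]
  exact (QuotientGroup.eq_one_iff _).mpr (Subgroup.subset_normalClosure ⟨x, rfl⟩)

theorem FB_surj (m n : ℕ) (G : Type u) [Group G] (hG : ∀ g : G, g ^ n = 1) (s : Fin m → G)
    (hs : Subgroup.closure (Set.range s) = ⊤) :
    ∃ φ : FB.{u} m n →* G, Function.Surjective φ := by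
  let ψ : FreeGroup (ULift.{u} (Fin m)) →* G := FreeGroup.lift fun i => s i.down
  have hψ : Subgroup.normalClosure (Set.range fun g : FreeGroup (ULift.{u} (Fin m)) => g ^ n) ≤
      ψ.ker := by
    refine Subgroup.normalClosure_le_normal ?_
    rintro _ ⟨g, rfl⟩
    show ψ (g ^ n) = 1
    rw [map_pow, hG]
  refine ⟨QuotientGroup.lift _ ψ (fun g hg => hψ hg), ?_⟩
  rw [← MonoidHom.range_eq_top, eq_top_iff, ← hs, Subgroup.closure_le]
  rintro _ ⟨i, rfl⟩
  refine ⟨QuotientGroup.mk' _ (FreeGroup.of (ULift.up i)), ?_⟩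
  simp [ψ]

theorem types_of_inL {n : ℕ} (h : InL.{u} n) : FinitelyManyTypes.{u} n := by
  intro m
  have : Group.FG (FB.{u} m n) := inferInstance
  have hfin : Finite (FB.{u} m n) := by
    have h1 := h.2 (FB.{u} m n) (FB_pow m n) ⊤ ((Group.fg_def).mp inferInstance)
    exact Finite.of_equiv _ (Subgroup.topEquiv (G := FB.{u} m n)).toEquiv
  let N := {N : Subgroup (FB.{u} m n) // N.Normal}
  have hN : Finite N := inferInstance
  let e := Finite.equivFin N
  refine ⟨Nat.card N, fun i => FB.{u} m n ⧸ (e.symm i).1,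
    fun i => by haveI := (e.symm i).2; exact inferInstance, ?_⟩
  intro G _ hG hs
  obtain ⟨s, hs⟩ := hs
  obtain ⟨φ, hφ⟩ := FB_surj m n G hG s hs
  let K : N := ⟨φ.ker, inferInstance⟩
  have key : ∀ K' : N, K' = K →
      Nonempty (@MulEquiv G (FB.{u} m n ⧸ K'.1) _
        (@QuotientGroup.Quotient.group (FB.{u} m n) _ K'.1 K'.2).toMul) := by
    rintro K' rfl
    exact ⟨(QuotientGroup.quotientKerEquivOfSurjective φ hφ).symm⟩
  exact ⟨e K, key _ (e.symm_apply_apply K)⟩

theorem finite_of_fg {n : ℕ} (h : InL.{u} n) (G : Type u) [Group G] (hfg : Group.FG G)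
    (hG : ∀ g : G, g ^ n = 1) : Finite G := by
  have h1 := h.2 G hG ⊤ ((Group.fg_def).mp hfg)
  exact Finite.of_equiv _ (Subgroup.topEquiv (G := G)).toEquiv

/-! ### The main theorem -/

/-- For an exponent outside `𝓛` there is a finitely generated group satisfying `x ^ n = 1` with an
infinite strictly descending chain of normal subgroups. -/
theorem chain_of_not_inL {n : ℕ} (hn : 0 < n) (h : ¬ InL.{u} n) :
    ∃ (G : Type u) (_ : Group G), Group.FG G ∧ (∀ g : G, g ^ n = 1) ∧
      ∃ N : ℕ → Subgroup G, StrictAnti N ∧ ∀ i, (N i).Normal := by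
  obtain ⟨Γ, _, hfg, hinf, hex⟩ := exists_infinite hn h
  by_cases hb : ∃ k, ∀ N : Subgroup Γ, N.Normal → N.FiniteIndex → N.index ≤ k
  · obtain ⟨S, _, d, s, h1, h2, h3, h4⟩ := simple_of_bounded Γ hfg hinf hex hb
    exact chain_of_simple hn S h3 s h4
  · push Not at hb
    exact ⟨Γ, inferInstance, hfg, hex, chain_of_unbounded Γ hb⟩

theorem trichotomy {n : ℕ} (hn : 0 < n) :
    InL.{u} n ∨ UnboundedFinite.{u} n ∨ BoundedGrowthSimple.{u} n := by
  by_cases h : InL.{u} n
  · exact Or.inl h
  · right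
    obtain ⟨Γ, _, hfg, hinf, hex⟩ := exists_infinite hn h
    by_cases hb : ∃ k, ∀ N : Subgroup Γ, N.Normal → N.FiniteIndex → N.index ≤ k
    · right
      obtain ⟨S, _, d, s, h1, h2, h3, h4⟩ := simple_of_bounded Γ hfg hinf hex hb
      have hna := nonabelian_of_infinite hn h3
      refine ⟨S, inferInstance, d + 1, h1, h2, h3, boundedGrowth hn S h3 s h4, ?_⟩
      intro k l φ hφ
      simpa using card_le_of_surjective hna φ hφ
    · left
      push Not at hb
      obtain ⟨m, s, hs⟩ := (fg_iff_exists Γ).mp hfg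
      refine ⟨m, fun k => ?_⟩
      obtain ⟨N, hN, hNf, hNi⟩ := hb k
      refine ⟨Γ ⧸ N, inferInstance, pow_quotient hex N, ⟨_, closure_quotient s hs N⟩,
        inferInstance, ?_⟩
      exact hNi

theorem inL_of_types {n : ℕ} (hn : 0 < n) (h : FinitelyManyTypes.{u} n) : InL.{u} n := by
  rcases trichotomy.{u} hn with h1 | h1 | h1
  · exact h1
  · exfalso
    obtain ⟨m, hm⟩ := h1
    obtain ⟨k, H, _, hH⟩ := h m
    obtain ⟨G, _, hG, hs, hfin, hlt⟩ := hm (∑ i, Nat.card (H i))
    obtain ⟨i, ⟨e⟩⟩ := hH G hG hs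
    have h2 : Nat.card G = Nat.card (H i) := Nat.card_congr e.toEquiv
    have h3 : Nat.card (H i) ≤ ∑ i, Nat.card (H i) :=
      Finset.single_le_sum (f := fun i => Nat.card (H i)) (fun _ _ => Nat.zero_le _)
        (Finset.mem_univ i)
    omega
  · exfalso
    obtain ⟨S, _, d, hS1, hS2, hS3, hS4, hS5⟩ := h1
    obtain ⟨k, H, _, hH⟩ := h d
    have h2 : ∀ j : Fin (k + 1), ∃ i : Fin k, Nonempty ((Fin j → S) ≃* H i) := fun j =>
      hH (Fin j → S) (fun g => pow_pi hS3 g) (hS4 j)
    choose c hc using h2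
    obtain ⟨a, b, hab, hcab⟩ := Fintype.exists_ne_map_eq_of_card_lt c (by simp)
    obtain ⟨ea⟩ := hc a
    obtain ⟨eb⟩ := hc b
    rw [hcab] at ea
    have e1 : (Fin a → S) ≃* (Fin b → S) := ea.trans eb.symm
    have h3 := hS5 a b e1.toMonoidHom e1.surjective
    have h4 := hS5 b a e1.symm.toMonoidHom e1.symm.surjective
    exact hab (Fin.ext (le_antisymm h4 h3))

/-- **Counting characterisations of `𝓛`.** For every `n ≥ 1` the following are equivalent:
`n ∈ 𝓛`; for every `m` there are only finitely many `m`-generator groups satisfying `x ^ n = 1`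
up to isomorphism; every finitely generated group satisfying `x ^ n = 1` has only finitely many
normal subgroups; every finitely generated group satisfying `x ^ n = 1` has the minimal condition
on normal subgroups. Moreover either `n ∈ 𝓛`, or the finite `m`-generator groups satisfying
`x ^ n = 1` have unbounded orders for some `m`, or there is an infinite simple group `S`
satisfying `x ^ n = 1` all of whose powers are generated by the same number `d` of elements, with
`S ^ l` a quotient of `S ^ k` only if `l ≤ k`. -/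
theorem result (n : ℕ) (hn : 0 < n) :
    (InL.{u} n ↔ FinitelyManyTypes.{u} n) ∧
    (InL.{u} n ↔ FinitelyManyNormal.{u} n) ∧
    (InL.{u} n ↔ MinNormal.{u} n) ∧
    (InL.{u} n ∨ UnboundedFinite.{u} n ∨ BoundedGrowthSimple.{u} n) := by
  have hmin : MinNormal.{u} n → InL.{u} n := by
    intro h
    by_contra hcon
    obtain ⟨G, _, h1, h2, h3⟩ := chain_of_not_inL hn hcon
    exact h G h1 h2 h3
  refine ⟨⟨types_of_inL, inL_of_types hn⟩, ⟨?_, ?_⟩, ⟨?_, hmin⟩, trichotomy hn⟩
  · intro h G _ hfg hG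
    have := finite_of_fg h G hfg hG
    exact Set.toFinite _
  · intro h
    apply hmin
    rintro G _ hfg hG ⟨N, hN, hNn⟩
    have h1 := h G hfg hG
    have h2 : (Set.range N).Finite := h1.subset (by rintro _ ⟨i, rfl⟩; exact hNn i)
    exact (Set.infinite_range_of_injective hN.injective) h2
  · intro h G _ hfg hG
    rintro ⟨N, hN, -⟩
    have := finite_of_fg h G hfg hG
    exact not_injective_infinite_finite N hN.injective

end Pool.Agent.Results.MP_544bd1_al.CountingCharacterisation
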