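import Mathlib
import Pool.Agent.H10.FA.Order

/-!
# MP_544bd1_al: groups of exponent twenty acting freely on abelian groups

`𝓛` is the set of the positive integers `n` such that every group satisfying `x ^ n = 1` is locally
finite.  It is unknown whether `5`, `10` or `20` belongs to `𝓛`.  We settle the exponent `20` for the
groups which act freely on a nontrivial abelian group.
-/

set_option autoImplicit false

universe u v

namespace Pool.Agent.Results.MP_544bd1_al.FreeActionsExponentTwenty

/-- The group `G` acts freely on the abelian group `V`: no nontrivial element of `G` fixes a
nonzero element of `V`. -/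
def ActsFreely (G : Type u) (V : Type v) [Group G] [AddCommGroup V] [DistribMulAction G V] : Prop :=
  ∀ g : G, g ≠ 1 → ∀ w : V, g • w = w → w = 0

/-- Every group of exponent dividing `20` acting freely on a nontrivial abelian group is finite, and
its order divides `40`. -/
theorem result (G : Type u) (V : Type v) [Group G] [AddCommGroup V] [DistribMulAction G V]
    [Nontrivial V] (hf : ActsFreely G V) (hG : ∀ g : G, g ^ 20 = 1) :
    Finite G ∧ Nat.card G ∣ 40 :=
  ⟨H10.FA.finite_twenty (V := V) hf hG, H10.FA.card_dvd (V := V) hf hG⟩

end Pool.Agent.Results.MP_544bd1_al.FreeActionsExponentTwenty
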