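import Pool.Agent.H9.Burnside.HallTwo

/-!
# Exponents outside `𝓛`: continuum many finitely generated groups with a prescribed centre
-/

namespace Pool.Agent.Results.MP_544bd1_al.PrescribedCentres

open Pool.Agent.H9.Burnside

universe u

/-- `n ∈ 𝓛`: `n` is positive and every group satisfying `x ^ n = 1` is locally finite. -/
def InL (n : ℕ) : Prop :=
  0 < n ∧ ∀ (G : Type u) [Group G], (∀ g : G, g ^ n = 1) → ∀ H : Subgroup G, H.FG → Finite H

/-- `G` is generated by `d` elements. -/
def GeneratedBy (d : ℕ) (G : Type u) [Group G] : Prop :=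
  ∃ s : Fin d → G, Subgroup.closure (Set.range s) = ⊤

/-- Some infinite group satisfying `x ^ n = 1` is generated by `d` elements, that is, the free
Burnside group `B_{d,n}` is infinite. -/
def InfiniteOfRank (n d : ℕ) : Prop :=
  ∃ (Γ : Type u) (_ : Group Γ), Infinite Γ ∧ (∀ g : Γ, g ^ n = 1) ∧ GeneratedBy d Γ

theorem inL_iff {n : ℕ} (hn : 0 < n) : InL.{u} n ↔ ∀ d, ¬ InfiniteOfRank.{u} n d := by
  classical
  constructor
  · rintro h d ⟨Γ, _, hinf, hex, s, hs⟩
    have hfg : (⊤ : Subgroup Γ).FG := ⟨Finset.univ.image s, by rw [← hs]; congr 1; ext x; simp⟩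
    have h1 := h.2 Γ hex ⊤ hfg
    have : Finite Γ := Finite.of_equiv _ (Subgroup.topEquiv (G := Γ)).toEquiv
    exact not_finite Γ
  · intro h
    refine ⟨hn, fun G _ hex H hfg => ?_⟩
    by_contra hcon
    rw [not_finite_iff_infinite] at hcon
    obtain ⟨T, hT⟩ := (Group.fg_def.mp ((Group.fg_iff_subgroup_fg H).mpr hfg))
    refine h T.card ⟨H, inferInstance, hcon, fun g => Subtype.ext (by simpa using hex g),
      fun i => (T.equivFin.symm i : H), ?_⟩
    rw [← hT]
    congr 1
    ext x
    constructor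
    · rintro ⟨i, rfl⟩
      exact (T.equivFin.symm i).2
    · intro hx
      exact ⟨T.equivFin ⟨x, hx⟩, by simp⟩

/-- A group satisfying `x ^ n = 1` generated by one element is finite. -/
theorem finite_of_one {n : ℕ} (hn : 0 < n) (Γ : Type u) [Group Γ] (hex : ∀ g : Γ, g ^ n = 1)
    (g : Γ) (hg : ∀ x : Γ, x ∈ Subgroup.zpowers g) : Finite Γ := by
  have h1 : (Subgroup.zpowers g : Set Γ).Finite :=
    finite_zpowers.mpr (isOfFinOrder_iff_pow_eq_one.mpr ⟨n, hn, hex g⟩)
  have h2 : (Set.univ : Set Γ).Finite := h1.subset fun x _ => hg x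
  exact Set.finite_univ_iff.mp h2

/-- The just infinite quotient. -/
theorem exists_core {n d : ℕ} (hn : 0 < n) (h : InfiniteOfRank.{u} n d) :
    ∃ d', d = d' + 2 ∧ ∃ (H : Type u) (_ : Group H), Infinite H ∧ (∀ g : H, g ^ n = 1) ∧
      (∀ M : Subgroup H, M.Normal → M = ⊥ ∨ M.FiniteIndex) ∧
      ∃ s : Fin (d' + 2) → H, Subgroup.closure (Set.range s) = ⊤ := by
  classical
  obtain ⟨Γ, _, hinf, hex, s, hs⟩ := h
  match d, s, hs with
  | 0, s, hs =>
      exfalso
      have h1 : (Set.range s) = ∅ := by simp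
      rw [h1, Subgroup.closure_empty] at hs
      have h2 : Finite Γ := finite_of_one hn Γ hex 1 fun x => by
        have hx : x ∈ (⊥ : Subgroup Γ) := by rw [hs]; trivial
        rw [Subgroup.mem_bot] at hx
        rw [hx]
        exact one_mem _
      exact not_finite Γ
  | 1, s, hs =>
      exfalso
      have h2 : Finite Γ := finite_of_one hn Γ hex (s 0) fun x => by
        have hx : x ∈ Subgroup.closure (Set.range s) := by rw [hs]; trivial
        rwa [Set.range_unique, Fin.default_eq_zero, ← Subgroup.zpowers_eq_closure] at hx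
      exact not_finite Γ
  | d' + 2, s, hs =>
      refine ⟨d', rfl, ?_⟩
      have hfg : Group.FG Γ := Group.fg_def.mpr ⟨Finset.univ.image s, by
        rw [← hs]; congr 1; ext x; simp⟩
      obtain ⟨N, hN, hNinf, hNmax⟩ := exists_just_infinite Γ
      have hsurj := QuotientGroup.mk'_surjective N
      refine ⟨Γ ⧸ N, inferInstance, hNinf, ?_, ?_, fun i => QuotientGroup.mk' N (s i), ?_⟩
      · intro g
        obtain ⟨x, rfl⟩ := hsurj g
        rw [← map_pow, hex x, map_one]
      · intro M hM
        have h1 : N ≤ M.comap (QuotientGroup.mk' N) := by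
          intro x hx
          rw [Subgroup.mem_comap]
          have : QuotientGroup.mk' N x = 1 := (QuotientGroup.eq_one_iff x).mpr hx
          rw [this]
          exact M.one_mem
        rcases hNmax _ (hM.comap _) h1 with h2 | h2
        · left
          rw [eq_bot_iff]
          intro y hy
          obtain ⟨x, rfl⟩ := hsurj y
          have hx : x ∈ M.comap (QuotientGroup.mk' N) := hy
          rw [h2] at hx
          rw [Subgroup.mem_bot]
          exact (QuotientGroup.eq_one_iff x).mpr hx
        · right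
          constructor
          rw [← Subgroup.index_comap_of_surjective M hsurj]
          exact h2.index_ne_zero
      · have h1 : Set.range (fun i => (QuotientGroup.mk' N (s i))) =
            (QuotientGroup.mk' N) '' Set.range s := by
          rw [← Set.range_comp]; rfl
        rw [h1, ← MonoidHom.map_closure, hs, ← MonoidHom.range_eq_map]
        exact MonoidHom.range_eq_top.mpr hsurj

/-- The family of groups. -/
theorem family {n d : ℕ} (hn : 0 < n) (h : InfiniteOfRank.{u} n d) (k : ℕ) (hk : 2 ≤ k)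
    (D : Type u) [CommGroup D] [Countable D] [Nontrivial D] (hD : ∀ x : D, x ^ k = 1) :
    ∃ (F : Set ℕ → Type u) (_ : ∀ X, Group (F X)),
      (∀ X, GeneratedBy d (F X) ∧
        (∀ g : F X, g ^ (if Odd k ∨ Even n then k * n else 2 * k * n) = 1) ∧
        Nonempty (Subgroup.center (F X) ≃* D)) ∧
      ∀ X Y, Nonempty (F X ≃* F Y) → X = Y := by
  obtain ⟨d', rfl, H, _, hinf, hex, hji, s, hs⟩ := exists_core hn h
  classical
  have hfg : Group.FG H := Group.fg_def.mpr ⟨Finset.univ.image s, by
        rw [← hs]; congr 1; ext x; simp⟩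
  have hHc : Countable H := HG.countable_of_generated s hs
  have : NeZero k := ⟨by omega⟩
  have ha : IsOfFinOrder (s 0) := isOfFinOrder_iff_pow_eq_one.mpr ⟨n, hn, hex _⟩
  have hb : IsOfFinOrder (s 1) := isOfFinOrder_iff_pow_eq_one.mpr ⟨n, hn, hex _⟩
  obtain ⟨g, hg1, hg2⟩ := exists_good_sequence hn hex
    (fun y hy => centralizer_infinite_index hn hex hji y hy) (s 0) (s 1)
  have hg : HG.GoodSeq (s 0) (s 1) g := ⟨hg1, hg2⟩
  obtain ⟨e⟩ : Nonempty (ℕ ≃ ℕ ⊕ ℕ) := nonempty_equiv_of_countable
  have hDc : Countable (Additive D) := (inferInstance : Countable D)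
  obtain ⟨σ, hσ⟩ := exists_surjective_nat (Additive D)
  obtain ⟨e0, he0⟩ := exists_ne (0 : Additive D)
  have hD' : ∀ x : Additive D, k • x = 0 := fun x => hD x.toMul
  let P : Set ℕ → (MonoidAlgebra (ZMod k) H →+ Additive D) := HG.piG hD' g e σ e0
  obtain ⟨f, hf⟩ := exists_many_inequivalent
    (fun X Y => Nonempty (HG.L (P X) s ≃* HG.L (P Y) s))
    ⟨fun X => ⟨MulEquiv.refl _⟩, fun ⟨g⟩ => ⟨g.symm⟩, fun ⟨g⟩ ⟨g'⟩ => ⟨g.trans g'⟩⟩
    (fun Y => HG.countable_class_L s hs ha hb hg hD' e σ e0 he0 Y)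
  refine ⟨fun X => HG.L (P (f X)) s, fun X => inferInstance, fun X => ?_, ?_⟩
  · refine ⟨HG.generated_L _ _, ?_, ?_⟩
    · intro x
      exact Subtype.ext (HG.pow_eq_one' n hex hD' (x : HG k H (Additive D) (P (f X))))
    · obtain ⟨φ⟩ := HG.center_L_equiv (π := P (f X)) hk hn hex hji hs
        (HG.piG_surj hD' ha hb hg e σ hσ e0 (f X))
      exact ⟨φ.trans (MulEquiv.refl _)⟩
  · intro X Y hXY
    exact hf X Y hXY

/-- **Prescribed centres.** Let `n ≥ 1`. By definition `n ∈ 𝓛` exactly when for no `d` some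
infinite group satisfying `x ^ n = 1` is generated by `d` elements. If there is such a `d`, then
for every `k ≥ 2` and every nontrivial countable abelian group `D` satisfying `x ^ k = 1` there
are continuum many pairwise non-isomorphic groups which are generated by the same number `d` of
elements, satisfy `x ^ (k n) = 1` (`x ^ (2 k n) = 1` when `k` is even and `n` odd), and have
centre isomorphic to `D`. In particular, if for a single `k ≥ 2` there are only countably many
finitely generated groups of the latter exponent up to isomorphism, then `n ∈ 𝓛`. -/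
theorem result (n : ℕ) (hn : 0 < n) :
    (InL.{u} n ↔ ∀ d, ¬ InfiniteOfRank.{u} n d) ∧
    (∀ d, InfiniteOfRank.{u} n d → ∀ k : ℕ, 2 ≤ k →
      ∀ (D : Type u) [CommGroup D] [Countable D] [Nontrivial D], (∀ x : D, x ^ k = 1) →
        ∃ (F : Set ℕ → Type u) (_ : ∀ X, Group (F X)),
          (∀ X, GeneratedBy d (F X) ∧
            (∀ g : F X, g ^ (if Odd k ∨ Even n then k * n else 2 * k * n) = 1) ∧
            Nonempty (Subgroup.center (F X) ≃* D)) ∧
          ∀ X Y, Nonempty (F X ≃* F Y) → X = Y) ∧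
    (∀ k : ℕ, 2 ≤ k →
      (∃ (E : ℕ → Type u) (_ : ∀ i, Group (E i)), ∀ (G : Type u) [Group G],
        (∀ g : G, g ^ (if Odd k ∨ Even n then k * n else 2 * k * n) = 1) →
          (∃ d, GeneratedBy d G) → ∃ i, Nonempty (G ≃* E i)) → InL.{u} n) := by
  refine ⟨inL_iff hn, fun d h k hk D _ _ _ hD => family hn h k hk D hD, ?_⟩
  rintro k hk ⟨E, _, hE⟩
  rw [inL_iff hn]
  intro d hd
  have : NeZero k := ⟨by omega⟩
  have : Fact (1 < k) := ⟨hk⟩
  obtain ⟨F, _, hF, hinj⟩ := family hn hd k hk (ULift.{u} (Multiplicative (ZMod k))) (by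
    intro x
    apply ULift.ext
    show (x.down) ^ k = 1
    apply Multiplicative.toAdd.injective
    rw [toAdd_pow, toAdd_one]
    simp)
  have h1 : ∀ X, ∃ i, Nonempty (F X ≃* E i) := fun X => hE (F X) (hF X).2.1 ⟨_, (hF X).1⟩
  choose c hc using h1
  have hci : Function.Injective c := by
    intro X Y hXY
    obtain ⟨a⟩ := hc X
    obtain ⟨b⟩ := hc Y
    rw [hXY] at a
    exact hinj X Y ⟨a.trans b.symm⟩
  have h2 := Cardinal.mk_le_of_injective hci
  rw [Cardinal.mk_set_nat, Cardinal.mk_nat] at h2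
  exact absurd h2 (not_le.mpr Cardinal.aleph0_lt_continuum)

end Pool.Agent.Results.MP_544bd1_al.PrescribedCentres
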