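import Pool.Agent.H9.Burnside.GenericTheory

/-!
# Exponents outside `𝓛`: elementarily equivalent finitely generated groups which are not isomorphic
-/

namespace Pool.Agent.Results.MP_544bd1_al.SameFirstOrderTheory

open Pool.Agent.H9.Burnside

universe u

/-- `n ∈ 𝓛`: `n` is positive and every group satisfying `x ^ n = 1` is locally finite. -/
def InL (n : ℕ) : Prop :=
  0 < n ∧ ∀ (G : Type u) [Group G], (∀ g : G, g ^ n = 1) → ∀ H : Subgroup G, H.FG → Finite H

/-- The tuple `s` generates the group. -/
def Generates {G : Type} [Group G] {m : ℕ} (s : Fin m → G) : Prop :=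
  Subgroup.closure (Set.range s) = ⊤

/-- Some infinite group satisfying `x ^ n = 1` is generated by `d` elements, that is, the free
Burnside group `B_{d,n}` is infinite. -/
def InfiniteOfRank (n d : ℕ) : Prop :=
  ∃ (Γ : Type) (_ : Group Γ) (s : Fin d → Γ), Infinite Γ ∧ (∀ g : Γ, g ^ n = 1) ∧ Generates s

/-- `k n` if `k` is odd or `n` is even, and `2 k n` otherwise. -/
def expo (k n : ℕ) : ℕ := if Odd k ∨ Even n then k * n else 2 * k * n

/-- `G` satisfies `x ^ e = 1` and its centre is isomorphic to `D`. -/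
def InClass (e : ℕ) (D : Type) [CommGroup D] (G : Type) [Group G] : Prop :=
  (∀ g : G, g ^ e = 1) ∧ Nonempty (Subgroup.center G ≃* D)

theorem inL_iff {n : ℕ} (hn : 0 < n) : InL.{u} n ↔ ∀ d, ¬ InfiniteOfRank n d := by
  classical
  constructor
  · rintro h d ⟨Γ, _, s, hinf, hex, hs⟩
    have hs' : Subgroup.closure (Set.range s) = ⊤ := hs
    have hfg : Group.FG Γ := Group.fg_def.mpr ⟨Finset.univ.image s, by
      rw [← hs']; congr 1; ext x; simp⟩
    have hfg2 : Group.FG (ULift.{u} Γ) :=
      Group.fg_of_surjective (f := (MulEquiv.ulift.{0, u} (α := Γ)).symm.toMonoidHom)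
        (MulEquiv.ulift.{0, u} (α := Γ)).symm.surjective
    have h1 := h.2 (ULift.{u} Γ) (fun g => ULift.ext _ _ (hex g.down)) ⊤ (Group.fg_def.mp hfg2)
    have h2 : Finite (ULift.{u} Γ) := Finite.of_equiv _ (Subgroup.topEquiv (G := ULift.{u} Γ)).toEquiv
    have : Finite Γ := Finite.of_equiv _ (Equiv.ulift.{u, 0} (α := Γ))
    exact not_finite Γ
  · intro h
    refine ⟨hn, fun G _ hex H hfg => ?_⟩
    by_contra hcon
    rw [not_finite_iff_infinite] at hcon
    obtain ⟨T, hT⟩ := (Group.fg_def.mp ((Group.fg_iff_subgroup_fg H).mpr hfg))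
    let t : Fin T.card → H := fun i => (T.equivFin.symm i : H)
    have ht : Subgroup.closure (Set.range t) = ⊤ := by
      rw [← hT]
      congr 1
      ext x
      constructor
      · rintro ⟨i, rfl⟩
        exact (T.equivFin.symm i).2
      · intro hx
        exact ⟨T.equivFin ⟨x, hx⟩, by simp [t]⟩
    have hsurj : Function.Surjective (FreeGroup.lift t) := by
      rw [← MonoidHom.range_eq_top, FreeGroup.range_lift_eq_closure, ht]
    let φ := QuotientGroup.quotientKerEquivOfSurjective (FreeGroup.lift t) hsurj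
    refine h T.card ⟨FreeGroup (Fin T.card) ⧸ (FreeGroup.lift t).ker, inferInstance,
      fun i => φ.symm (t i), ?_, ?_, ?_⟩
    · exact Infinite.of_injective φ.symm φ.symm.injective
    · intro g
      apply φ.injective
      rw [map_pow, map_one]
      exact Subtype.ext (by simpa using hex (φ g))
    · show Subgroup.closure (Set.range fun i => φ.symm (t i)) = ⊤
      have h1 : Set.range (fun i => φ.symm (t i)) = φ.symm.toMonoidHom '' Set.range t := by
        rw [← Set.range_comp]; rfl
      rw [h1, ← MonoidHom.map_closure, ht, ← MonoidHom.range_eq_map]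
      exact MonoidHom.range_eq_top.mpr φ.symm.surjective

/-- The family of groups. -/
theorem family {n d : ℕ} (h : InfiniteOfRank n d) (k : ℕ) (hk : 2 ≤ k)
    (D : Type) [CommGroup D] [Finite D] [Nontrivial D] (hD : ∀ x : D, x ^ k = 1)
    (f : (FreeGroup (Fin (d + 2)) → Prop) → ℝ) (hf : Measurable f)
    (hinv : ∀ (G G' : Type) [Group G] [Group G'] (s : Fin (d + 2) → G) (s' : Fin (d + 2) → G'),
      Generates s → Generates s' → InClass (expo k n) D G → InClass (expo k n) D G' →
        Nonempty (G ≃* G') → f (relations s) = f (relations s')) :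
    ∃ (F : Set ℕ → Type) (_ : ∀ X, Group (F X)) (s : ∀ X, Fin (d + 2) → F X),
      (∀ X, Generates (s X) ∧ InClass (expo k n) D (F X)) ∧
      (∀ X Y, Nonempty (F X ≃* F Y) → X = Y) ∧
      (∀ X Y, groupLanguage.ElementarilyEquivalent (F X) (F Y)) ∧
      ∀ X Y, f (relations (s X)) = f (relations (s Y)) := by
  obtain ⟨H, _, s, hinf, hex, hs⟩ := h
  have hs' : Subgroup.closure (Set.range s) = ⊤ := hs
  have : NeZero k := ⟨by omega⟩
  have hD' : ∀ x : Additive D, k • x = 0 := fun x => hD x.toMul
  have hfin : Finite (Additive D) := (inferInstance : Finite D)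
  letI : TopologicalSpace (Additive D) := ⊥
  have : DiscreteTopology (Additive D) := ⟨rfl⟩
  have hclass : ∀ X ∈ HG.Onto H (Additive D),
      Generates (HG.gens (HG.piOf (k := k) hD' X) s) ∧
        InClass (expo k n) D (HG k H (Additive D) (HG.piOf hD' X)) := by
    intro X hX
    refine ⟨HG.closure_gens (HG.piOf_surjective hD' X hX) s hs', fun g => ?_, ?_⟩
    · exact HG.pow_eq_one' n hex hD' g
    · obtain ⟨g⟩ := HG.center_equiv (π := HG.piOf (k := k) (H := H) hD' X) hk
      exact ⟨g.trans (MulEquiv.refl _)⟩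
  obtain ⟨F, h1, h2, h3, h4⟩ := HG.exists_generic_family (k := k) (D := Additive D) s hs' hD' f hf
    (fun X Y hX hY hXY => hinv _ _ _ _ (hclass X hX).1 (hclass Y hY).1 (hclass X hX).2
      (hclass Y hY).2 hXY)
  exact ⟨fun X => HG k H (Additive D) (HG.piOf hD' (F X)), fun X => inferInstance,
    fun X => HG.gens (HG.piOf hD' (F X)) s, fun X => hclass _ (h1 X), h2, h3, h4⟩

/-- **Elementarily equivalent groups.** Let `n ≥ 1`. By definition `n ∈ 𝓛` exactly when for no `d`
some infinite group satisfying `x ^ n = 1` is generated by `d` elements. If there is such a `d`,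
then for every `k ≥ 2`, every nontrivial finite abelian group `D` satisfying `x ^ k = 1` and every
Borel measurable real valued isomorphism invariant `f` of the groups generated by `d + 2` elements
with centre isomorphic to `D` which satisfy `x ^ (k n) = 1` (`x ^ (2 k n) = 1` if `k` is even and
`n` odd) there are continuum many pairwise non-isomorphic groups of this kind which are
elementarily equivalent and have the same value of `f`. In particular `n ∈ 𝓛` if for one `k ≥ 2`
the finitely generated groups of the latter exponent are determined up to isomorphism by their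
first order theories, or by Borel measurable real valued invariants. -/
theorem result (n : ℕ) (hn : 0 < n) :
    (InL.{u} n ↔ ∀ d, ¬ InfiniteOfRank n d) ∧
    (∀ d, InfiniteOfRank n d → ∀ k : ℕ, 2 ≤ k →
      ∀ (D : Type) [CommGroup D] [Finite D] [Nontrivial D], (∀ x : D, x ^ k = 1) →
      ∀ f : (FreeGroup (Fin (d + 2)) → Prop) → ℝ, Measurable f →
      (∀ (G G' : Type) [Group G] [Group G'] (s : Fin (d + 2) → G) (s' : Fin (d + 2) → G'),
        Generates s → Generates s' → InClass (expo k n) D G → InClass (expo k n) D G' →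
          Nonempty (G ≃* G') → f (relations s) = f (relations s')) →
      ∃ (F : Set ℕ → Type) (_ : ∀ X, Group (F X)) (s : ∀ X, Fin (d + 2) → F X),
        (∀ X, Generates (s X) ∧ InClass (expo k n) D (F X)) ∧
        (∀ X Y, Nonempty (F X ≃* F Y) → X = Y) ∧
        (∀ X Y, groupLanguage.ElementarilyEquivalent (F X) (F Y)) ∧
        ∀ X Y, f (relations (s X)) = f (relations (s Y))) ∧
    (∀ k : ℕ, 2 ≤ k →
      (∀ (G G' : Type) [Group G] [Group G'], Group.FG G → Group.FG G' →
        (∀ g : G, g ^ expo k n = 1) → (∀ g : G', g ^ expo k n = 1) →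
          groupLanguage.ElementarilyEquivalent G G' → Nonempty (G ≃* G')) → InL.{u} n) ∧
    (∀ k : ℕ, 2 ≤ k →
      (∀ m : ℕ, ∃ f : (FreeGroup (Fin m) → Prop) → ℝ, Measurable f ∧
        ∀ (G G' : Type) [Group G] [Group G'] (s : Fin m → G) (s' : Fin m → G'),
          Generates s → Generates s' → (∀ g : G, g ^ expo k n = 1) →
          (∀ g : G', g ^ expo k n = 1) →
            (f (relations s) = f (relations s') ↔ Nonempty (G ≃* G'))) → InL.{u} n) := by
  refine ⟨inL_iff hn, fun d h k hk D _ _ _ hD f hf hinv => family h k hk D hD f hf hinv, ?_, ?_⟩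
  · intro k hk hE
    rw [inL_iff hn]
    intro d hd
    have : NeZero k := ⟨by omega⟩
    have : Fact (1 < k) := ⟨hk⟩
    obtain ⟨F, _, s, hF1, hF2, hF3, -⟩ := family hd k hk (Multiplicative (ZMod k)) (by
      intro x
      apply Multiplicative.toAdd.injective
      rw [toAdd_pow, toAdd_one]
      simp) (fun _ => 0) measurable_const (fun _ _ _ _ _ _ _ _ _ _ _ => rfl)
    classical
    have hfg : ∀ X, Group.FG (F X) := fun X => by
      have hs' : Subgroup.closure (Set.range (s X)) = ⊤ := (hF1 X).1
      exact Group.fg_def.mpr ⟨Finset.univ.image (s X), by rw [← hs']; congr 1; ext x; simp⟩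
    have h1 := hF2 ∅ Set.univ (hE (F ∅) (F Set.univ) (hfg _) (hfg _) (hF1 _).2.1 (hF1 _).2.1
      (hF3 _ _))
    exact Set.empty_ne_univ h1
  · intro k hk hE
    rw [inL_iff hn]
    intro d hd
    have : NeZero k := ⟨by omega⟩
    have : Fact (1 < k) := ⟨hk⟩
    obtain ⟨f, hf, hfE⟩ := hE (d + 2)
    obtain ⟨F, _, s, hF1, hF2, -, hF4⟩ := family hd k hk (Multiplicative (ZMod k)) (by
      intro x
      apply Multiplicative.toAdd.injective
      rw [toAdd_pow, toAdd_one]
      simp) f hf (fun G G' _ _ s s' hs hs' hG hG' hGG' =>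
        (hfE G G' s s' hs hs' hG.1 hG'.1).mpr hGG')
    have h1 := hF2 ∅ Set.univ ((hfE (F ∅) (F Set.univ) (s _) (s _) (hF1 _).1 (hF1 _).1
      (hF1 _).2.1 (hF1 _).2.1).mp (hF4 _ _))
    exact Set.empty_ne_univ h1

end Pool.Agent.Results.MP_544bd1_al.SameFirstOrderTheory
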